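import Pool.Agent.V11288.LZ.Theta

/-!
# The equivariant leading term `Θ^{(r)}_{S,T}(H/F, 0)` as a limit of sums over primes

Let `H/F` be a finite abelian extension of number fields with group `G`, `S` and `T` disjoint finite sets of
places of `F`, as in Rubin's conjecture; we write `S` and `T` for the sets of the finite places in them, and
`σ_v` for the Frobenius at `v ∉ S`.  The conjecture describes the element `Θ^{(r)}_{S,T}(H/F, 0)` of `ℂ[G]`, the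
limit of `Θ_{S,T}(s)/s^r` at `s = 0`, where `χ(Θ_{S,T}(s)) = L_{S,T}(χ⁻¹, s)` for all characters `χ` of `G`:
there should be `u` in Rubin's lattice with `φ(λ(u)) = Θ^{(r)}_{S,T}(H/F, 0)`.  We show that
`Θ^{(r)}_{S,T}(H/F, 0)` is the limit of explicit sums over the primes, outside the domain of convergence of the
Euler products.  Let `γ > π/2`, and for a character `χ` and `X > 1`, with `u = k log q_v / log X`,

`W_χ(X) = ∑_{v ∉ S} ∑_{k ≥ 1} χ(σ_v)^k / k · e^{iγu} / Γ(1 + u)`,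
`E_g(X) = |G|⁻¹ ∑_χ χ(g) ∏_{v ∈ T} (1 - χ(σ_v) q_v) exp W_χ(X)`,   `g ∈ G`,

and `Λ_γ = ∫_0^∞ (e^{-t} - e^{iγt}/Γ(1+t)) dt/t`.  For every integer `r` and every `θ = ∑_g θ_g g ∈ ℂ[G]`:

1. `Θ_{S,T}(s)/s^r → θ` for `s → 0` if and only if `(log X)^r E_g(X) → e^{rΛ_γ} θ_g` for `X → ∞`, for all `g`;

2. in this case `(log X)^r E_g(X) = e^{rΛ_γ} θ_g + O(1/log X)`.

(In the group ring: `(log X)^r ∏_{v ∈ T}(1 - σ_v⁻¹ q_v) exp(∑_{v ∉ S, k ≥ 1} σ_v^{-k}/k · e^{iγu}/Γ(1+u))`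
converges to `e^{rΛ_γ} Θ^{(r)}_{S,T}(H/F, 0)`.)  With `θ = φ(λ(u))` this makes the equation of Q1 for an element
`u` of Rubin's lattice a statement on the distribution of the Frobenius automorphisms, without analytic
continuation.  No hypothesis on the zeros of the `L`-functions is used; the order of vanishing of
`L_{S,T}(χ, s)` at `0` can be larger than `r` for some of the characters.

Proof.  `Pool.Agent.V11288.LZ` (the law of rotated Mittag-Leffler sums at all real points), applied to each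
character, and duality for finite abelian groups.
-/

set_option autoImplicit false

namespace Pool.Agent.Results.MP_dd9835_nt.ThetaByPrimes

open Filter Topology Set NumberField IsDedekindDomain

variable {F H : Type} [Field F] [NumberField F] [Field H] [NumberField H] [Algebra F H]

/-- `q_v`. -/
noncomputable def nrm (v : HeightOneSpectrum (𝓞 F)) : ℕ := Ideal.absNorm v.asIdeal

/-- `g` is the Frobenius automorphism of a prime `Q` of `H` above `v`: `g(x) ≡ x^(q_v)` modulo `Q`. -/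
def IsFrobenius (v : HeightOneSpectrum (𝓞 F)) (g : H ≃ₐ[F] H) : Prop :=
  ∃ Q : Ideal (𝓞 H), Q.IsPrime ∧ Q.comap (algebraMap (𝓞 F) (𝓞 H)) = v.asIdeal ∧
    ∀ x y : 𝓞 H, (y : H) = g (x : H) → y - x ^ nrm v ∈ Q

/-- `S` and `T` are disjoint, the primes outside `S` are unramified in `H` and `σ v` is the Frobenius
automorphism for `v ∉ S`. -/
structure IsData (S T : Finset (HeightOneSpectrum (𝓞 F)))
    (σ : HeightOneSpectrum (𝓞 F) → (H ≃ₐ[F] H)) : Prop where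
  disjoint : Disjoint S T
  unramified : ∀ v ∉ S, Squarefree (v.asIdeal.map (algebraMap (𝓞 F) (𝓞 H)))
  frobenius : ∀ v ∉ S, IsFrobenius v (σ v)

section group

variable {G : Type} [Group G]

/-- The factor `∏_{v ∈ T} (1 - χ(σ_v) q_v^{1-s})`. -/
noncomputable def tfactor (T : Finset (HeightOneSpectrum (𝓞 F))) (σ : HeightOneSpectrum (𝓞 F) → G)
    (χ : G →* ℂˣ) (s : ℂ) : ℂ :=
  ∏ v ∈ T, (1 - ((χ (σ v) : ℂˣ) : ℂ) * (nrm v : ℂ) ^ (1 - s))

/-- `Λ χ = L_{S,T}(χ, s)` for all characters `χ` of `G`: it is the Euler product for `Re s > 1`, and is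
meromorphic at the points of the real interval `[0, 1]`. -/
structure IsLSeries (S T : Finset (HeightOneSpectrum (𝓞 F))) (σ : HeightOneSpectrum (𝓞 F) → G)
    (Λ : (G →* ℂˣ) → ℂ → ℂ) : Prop where
  mero : ∀ χ, ∀ x ∈ Icc (0 : ℝ) 1, MeromorphicAt (Λ χ) (x : ℂ)
  prod : ∀ χ, ∀ s : ℂ, 1 < s.re → Λ χ s = tfactor T σ χ s *
    ∏' v : {v : HeightOneSpectrum (𝓞 F) // v ∉ S}, (1 - ((χ (σ v.1) : ℂˣ) : ℂ) * (nrm v.1 : ℂ) ^ (-s))⁻¹

/-- `Θ_{S,T}(s)/s^r → θ = ∑_g θ_g g` for `s → 0`: `L_{S,T}(χ, s)/s^r → χ⁻¹(θ)` for all characters `χ`. -/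
def HasTheta [Fintype G] (Λ : (G →* ℂˣ) → ℂ → ℂ) (r : ℤ) (θ : G → ℂ) : Prop :=
  ∀ χ : G →* ℂˣ, Tendsto (fun s : ℂ => Λ χ s / s ^ r) (𝓝[≠] 0) (𝓝 (∑ g, ((χ g⁻¹ : ℂˣ) : ℂ) * θ g))

/-- The term of `W_χ(X)` at `(v, k)`. -/
noncomputable def term (σ : HeightOneSpectrum (𝓞 F) → G) (χ : G →* ℂˣ) (γ X : ℝ)
    (v : HeightOneSpectrum (𝓞 F)) (k : ℕ) : ℂ :=
  ((χ (σ v) : ℂˣ) : ℂ) ^ k / k * (Complex.exp ((γ * (k * Real.log (nrm v) / Real.log X) : ℝ) * Complex.I) /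
    (Real.Gamma (1 + k * Real.log (nrm v) / Real.log X) : ℂ))

/-- `W_χ(X)`, the sum over `v ∉ S` and `k ≥ 1` (here `k = x.2 + 1`). -/
noncomputable def W (S : Finset (HeightOneSpectrum (𝓞 F))) (σ : HeightOneSpectrum (𝓞 F) → G)
    (χ : G →* ℂˣ) (γ X : ℝ) : ℂ :=
  ∑' x : {v : HeightOneSpectrum (𝓞 F) // v ∉ S} × ℕ, term σ χ γ X x.1.1 (x.2 + 1)

/-- `E_g(X) = |G|⁻¹ ∑_χ χ(g) ∏_{v ∈ T} (1 - χ(σ_v) q_v) exp W_χ(X)`. -/
noncomputable def E (S T : Finset (HeightOneSpectrum (𝓞 F))) (σ : HeightOneSpectrum (𝓞 F) → G)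
    (γ X : ℝ) (g : G) : ℂ :=
  (∑ᶠ χ : G →* ℂˣ, ((χ g : ℂˣ) : ℂ) *
    ((∏ v ∈ T, (1 - ((χ (σ v) : ℂˣ) : ℂ) * nrm v)) * Complex.exp (W S σ χ γ X))) / Nat.card G

end group

/-- `Λ_γ = ∫_0^∞ (e^{-t} - e^{iγt} / Γ(1 + t)) dt / t`. -/
noncomputable def Lam (γ : ℝ) : ℂ := ∫ t in Ioi (0 : ℝ),
  (Complex.exp (-(t : ℂ)) - Complex.exp ((γ * t : ℝ) * Complex.I) * ((Real.Gamma (1 + t))⁻¹ : ℝ)) / t

open Pool.Agent.V11288.LZ

section proof

variable {G : Type} [CommGroup G]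

theorem term_eq (σ : HeightOneSpectrum (𝓞 F) → G) (χ : G →* ℂˣ) (γ X : ℝ)
    (v : HeightOneSpectrum (𝓞 F)) (k : ℕ) : fterm σ 0 χ γ X v k = term σ χ γ X v k := by
  unfold fterm term wt nrm
  rw [Real.rpow_zero, Complex.ofReal_one, one_pow, mul_one]

theorem W_eq (S : Finset (HeightOneSpectrum (𝓞 F))) (σ : HeightOneSpectrum (𝓞 F) → G)
    (χ : G →* ℂˣ) (γ X : ℝ) : fW {v | v ∈ S} σ 0 χ γ X = W S σ χ γ X :=
  tsum_congr fun x => term_eq σ χ γ X x.1.1 (x.2 + 1)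

variable [Finite G]

theorem factor_ne {σ : HeightOneSpectrum (𝓞 F) → G} (χ : G →* ℂˣ) {v : HeightOneSpectrum (𝓞 F)}
    {s : ℂ} (hs : s.re < 1 ∨ 1 < s.re) :
    1 - ((χ (σ v) : ℂˣ) : ℂ) * (nrm v : ℂ) ^ (1 - s) ≠ 0 := by
  intro h
  have h2 : (2 : ℝ) ≤ nrm v := by
    exact_mod_cast Pool.Agent.H921R2.TatePole.two_le_nm v
  have h1 : ‖((χ (σ v) : ℂˣ) : ℂ) * (nrm v : ℂ) ^ (1 - s)‖ = 1 := by
    rw [← sub_eq_zero.1 h, norm_one]
  rw [norm_mul, norm_char, one_mul, Complex.norm_natCast_cpow_of_pos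
    (by exact_mod_cast (by linarith : (0 : ℝ) < nrm v)), Complex.sub_re, Complex.one_re] at h1
  rcases hs with h3 | h3
  · have := Real.one_lt_rpow (by linarith : (1 : ℝ) < nrm v) (by linarith : 0 < 1 - s.re)
    linarith
  · have := Real.rpow_lt_one_of_one_lt_of_neg (by linarith : (1 : ℝ) < nrm v)
      (by linarith : 1 - s.re < 0)
    linarith

theorem tfactor_ne (T : Finset (HeightOneSpectrum (𝓞 F))) (σ : HeightOneSpectrum (𝓞 F) → G)
    (χ : G →* ℂˣ) {s : ℂ} (hs : s.re < 1 ∨ 1 < s.re) : tfactor T σ χ s ≠ 0 :=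
  Finset.prod_ne_zero_iff.2 fun _ _ => factor_ne χ hs

omit [Finite G] in
theorem tfactor_analytic (T : Finset (HeightOneSpectrum (𝓞 F))) (σ : HeightOneSpectrum (𝓞 F) → G)
    (χ : G →* ℂˣ) (s : ℂ) : AnalyticAt ℂ (tfactor T σ χ) s := by
  have h1 : Differentiable ℂ (tfactor T σ χ) := by
    unfold tfactor
    refine Differentiable.fun_finsetProd fun v _ => ?_
    refine (differentiable_const _).sub ((differentiable_const _).mul ?_)
    have h2 : (nrm v : ℂ) ≠ 0 := by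
      have h3 : 2 ≤ nrm v := Pool.Agent.H921R2.TatePole.two_le_nm v
      exact_mod_cast (by omega : nrm v ≠ 0)
    exact Differentiable.const_cpow (by fun_prop) (Or.inl h2)
  exact h1.analyticAt s

theorem main [Fintype G] (S T : Finset (HeightOneSpectrum (𝓞 F))) (σ : HeightOneSpectrum (𝓞 F) → G)
    (Λ : (G →* ℂˣ) → ℂ → ℂ) (hΛ : IsLSeries S T σ Λ) (γ : ℝ) (hγ : Real.pi / 2 < γ) (r : ℤ)
    (θ : G → ℂ) :
    (HasTheta Λ r θ ↔ ∀ g, Tendsto (fun X : ℝ => (Real.log X : ℂ) ^ r * E S T σ γ X g) atTop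
      (𝓝 (Complex.exp (r * Lam γ) * θ g))) ∧
    (HasTheta Λ r θ → ∀ g, (fun X : ℝ => (Real.log X : ℂ) ^ r * E S T σ γ X g -
      Complex.exp (r * Lam γ) * θ g) =O[atTop] (fun X : ℝ => 1 / Real.log X)) := by
  obtain ⟨h1, h2⟩ := equi_theta (S := {v | v ∈ S}) (fr := σ) (L := Λ)
    (F := fun χ => tfactor T σ χ) 0 (fun χ x hx => hΛ.mero χ x hx)
    (fun χ x => tfactor_analytic T σ χ x) (fun χ => tfactor_ne T σ χ (Or.inl (by simp)))
    (fun χ s hs => tfactor_ne T σ χ (Or.inr hs)) (fun χ s hs => hΛ.prod χ s hs) hγ r θ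
  have hE : ∀ (X : ℝ) (g : G), dftinv (fun χ => tfactor T σ χ ((0 : ℝ) : ℂ) *
      Complex.exp (fW {v | v ∈ S} σ 0 χ γ X)) g⁻¹ = E S T σ γ X g := by
    intro X g
    unfold dftinv E tfactor
    simp only [W_eq, inv_inv, Complex.ofReal_zero, sub_zero, Complex.cpow_one]
  have hT : HasTheta Λ r θ ↔ ∀ χ, Tendsto (fun s : ℂ => Λ χ s / (s - ((0 : ℝ) : ℂ)) ^ r)
      (𝓝[≠] ((0 : ℝ) : ℂ)) (𝓝 (dft (fun g => θ g⁻¹) χ)) := by
    refine forall_congr' fun χ => ?_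
    have h3 : dft (fun g => θ g⁻¹) χ = ∑ g, ((χ g⁻¹ : ℂˣ) : ℂ) * θ g := by
      unfold dft
      rw [finsum_eq_sum_of_fintype]
      refine Fintype.sum_equiv (Equiv.inv G) _ _ fun g => ?_
      simp
    rw [h3]
    simp only [Complex.ofReal_zero, sub_zero]
  simp only [hE] at h1 h2
  rw [hT]
  exact ⟨h1, h2⟩

end proof

/-- The commutative group structure of `Gal(H/F)`. -/
@[reducible] noncomputable def cgr (F H : Type) [Field F] [Field H] [Algebra F H]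
    [IsAbelianGalois F H] : CommGroup (H ≃ₐ[F] H) :=
  { (inferInstance : Group (H ≃ₐ[F] H)) with mul_comm := fun a b => mul_comm' a b }

/-- **The equivariant leading term as a limit of sums over primes.** -/
theorem result [IsAbelianGalois F H] (S T : Finset (HeightOneSpectrum (𝓞 F)))
    (σ : HeightOneSpectrum (𝓞 F) → (H ≃ₐ[F] H)) (_ : IsData S T σ)
    (Λ : ((H ≃ₐ[F] H) →* ℂˣ) → ℂ → ℂ) (hΛ : IsLSeries S T σ Λ) (γ : ℝ) (hγ : Real.pi / 2 < γ)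
    (r : ℤ) (θ : (H ≃ₐ[F] H) → ℂ) :
    (HasTheta Λ r θ ↔ ∀ g, Tendsto (fun X : ℝ => (Real.log X : ℂ) ^ r * E S T σ γ X g) atTop
      (𝓝 (Complex.exp (r * Lam γ) * θ g))) ∧
    (HasTheta Λ r θ → ∀ g, (fun X : ℝ => (Real.log X : ℂ) ^ r * E S T σ γ X g -
      Complex.exp (r * Lam γ) * θ g) =O[atTop] (fun X : ℝ => 1 / Real.log X)) :=
  @main F _ _ (H ≃ₐ[F] H) (cgr F H) _ _ S T σ Λ hΛ γ hγ r θ

end Pool.Agent.Results.MP_dd9835_nt.ThetaByPrimes
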